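import Pool.Agent.Zk91.SQ.Defs5

/-!
# Smoothness, Helmholtz equation and boundary conditions of the eigenfunctions of the square
-/

set_option autoImplicit false

open MeasureTheory
open scoped ContDiff

namespace Pool.Agent.Zk85.SQ

open Pool.Agent.Zk91.SQ
open Pool.Agent.W745.RW (lap dx dy)

/-- general combination of products of sines with phases -/
noncomputable def GG (S : Finset (ℕ × ℕ)) (a α φ β ψ : ℕ × ℕ → ℝ) (z : ℂ) : ℝ :=
  ∑ q ∈ S, a q * (Real.sin (α q * z.re + φ q) * Real.sin (β q * z.im + ψ q))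

lemma term_fderiv (a α φ β ψ : ℝ) (z : ℂ) :
    HasFDerivAt (fun z : ℂ => a * (Real.sin (α * z.re + φ) * Real.sin (β * z.im + ψ)))
      (a • (Real.sin (α * z.re + φ) • (Real.cos (β * z.im + ψ) • (β • Complex.imCLM)) +
        Real.sin (β * z.im + ψ) • (Real.cos (α * z.re + φ) • (α • Complex.reCLM)))) z := by
  have h1 : HasFDerivAt (fun z : ℂ => α * z.re + φ) (α • Complex.reCLM) z :=
    (Complex.reCLM.hasFDerivAt.const_mul α).add_const φ
  have h2 : HasFDerivAt (fun z : ℂ => β * z.im + ψ) (β • Complex.imCLM) z :=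
    (Complex.imCLM.hasFDerivAt.const_mul β).add_const ψ
  exact (h1.sin.mul h2.sin).const_mul a

lemma GG_contDiff (S : Finset (ℕ × ℕ)) (a α φ β ψ : ℕ × ℕ → ℝ) :
    ContDiff ℝ ∞ (GG S a α φ β ψ) := by
  unfold GG
  refine ContDiff.sum fun q _ => ?_
  refine contDiff_const.mul (ContDiff.mul ?_ ?_)
  · exact Real.contDiff_sin.comp ((contDiff_const.mul Complex.reCLM.contDiff).add contDiff_const)
  · exact Real.contDiff_sin.comp ((contDiff_const.mul Complex.imCLM.contDiff).add contDiff_const)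

lemma GG_fderiv (S : Finset (ℕ × ℕ)) (a α φ β ψ : ℕ × ℕ → ℝ) (z : ℂ) :
    fderiv ℝ (GG S a α φ β ψ) z = ∑ q ∈ S, (a q •
      (Real.sin (α q * z.re + φ q) • (Real.cos (β q * z.im + ψ q) • (β q • Complex.imCLM)) +
        Real.sin (β q * z.im + ψ q) • (Real.cos (α q * z.re + φ q) • (α q • Complex.reCLM)))) := by
  have := HasFDerivAt.fun_sum (u := S) (fun q _ => term_fderiv (a q) (α q) (φ q) (β q) (ψ q) z)
  exact this.fderiv

lemma dx_GG (S : Finset (ℕ × ℕ)) (a α φ β ψ : ℕ × ℕ → ℝ) :
    dx (GG S a α φ β ψ) = GG S (fun q => a q * α q) α (fun q => φ q + Real.pi / 2) β ψ := by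
  funext z
  unfold dx
  rw [GG_fderiv]
  simp only [GG, ContinuousLinearMap.sum_apply, ContinuousLinearMap.smul_apply,
    ContinuousLinearMap.add_apply, Complex.imCLM_apply, Complex.reCLM_apply, Complex.one_re,
    Complex.one_im, smul_eq_mul, mul_zero, zero_add, mul_one, ← add_assoc,
    Real.sin_add_pi_div_two]
  refine Finset.sum_congr rfl fun q _ => ?_
  ring

lemma dy_GG (S : Finset (ℕ × ℕ)) (a α φ β ψ : ℕ × ℕ → ℝ) :
    dy (GG S a α φ β ψ) = GG S (fun q => a q * β q) α φ β (fun q => ψ q + Real.pi / 2) := by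
  funext z
  unfold dy
  rw [GG_fderiv]
  simp only [GG, ContinuousLinearMap.sum_apply, ContinuousLinearMap.smul_apply,
    ContinuousLinearMap.add_apply, Complex.imCLM_apply, Complex.reCLM_apply, Complex.I_re,
    Complex.I_im, smul_eq_mul, mul_zero, add_zero, mul_one, ← add_assoc,
    Real.sin_add_pi_div_two]
  refine Finset.sum_congr rfl fun q _ => ?_
  ring

lemma comb_eq (S : Finset (ℕ × ℕ)) (c : ℕ × ℕ → ℝ) (A φ : ℝ) :
    comb S c A φ = GG S c (fun q => A * q.1) (fun _ => φ) (fun q => A * q.2) (fun _ => φ) := rfl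

lemma sin_nat (a : ℝ) (ha : 0 < a) (n : ℕ) : Real.sin (Real.pi / a * n * a) = 0 := by
  have : Real.pi / a * n * a = n * Real.pi := by field_simp
  rw [this]
  exact Real.sin_nat_mul_pi n

theorem e : S_E := by
  intro S c
  refine ⟨fun A φ => by rw [comb_eq]; exact GG_contDiff _ _ _ _ _ _, ?_, ?_, ?_, ?_⟩
  · intro A φ lam hl z
    rw [comb_eq]
    unfold lap
    rw [dx_GG, dx_GG, dy_GG, dy_GG]
    simp only [GG, ← add_assoc, Real.sin_add_pi_div_two, Real.cos_add_pi_div_two]
    rw [Finset.mul_sum, ← Finset.sum_add_distrib, ← Finset.sum_add_distrib]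
    refine Finset.sum_eq_zero fun q hq => ?_
    rw [← hl q hq]
    ring
  · intro a ha z hz
    unfold comb
    refine Finset.sum_eq_zero fun q _ => ?_
    have hs := sin_nat a ha
    rcases hz with h | h | h | h <;> rw [h] <;> simp [hs]
  · intro a ha z hz
    have h1 := congrFun (dx_GG S c (fun q => Real.pi / a * q.1) (fun _ => Real.pi / 2)
      (fun q => Real.pi / a * q.2) (fun _ => Real.pi / 2)) z
    rw [← comb_eq] at h1
    unfold dx at h1
    rw [h1]
    unfold GG
    refine Finset.sum_eq_zero fun q _ => ?_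
    have hs := sin_nat a ha
    simp only [← add_assoc, Real.sin_add_pi_div_two, Real.cos_add_pi_div_two]
    rcases hz with h | h <;> rw [h] <;> simp [hs]
  · intro a ha z hz
    have h1 := congrFun (dy_GG S c (fun q => Real.pi / a * q.1) (fun _ => Real.pi / 2)
      (fun q => Real.pi / a * q.2) (fun _ => Real.pi / 2)) z
    rw [← comb_eq] at h1
    unfold dy at h1
    rw [h1]
    unfold GG
    refine Finset.sum_eq_zero fun q _ => ?_
    have hs := sin_nat a ha
    simp only [← add_assoc, Real.sin_add_pi_div_two, Real.cos_add_pi_div_two]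
    rcases hz with h | h <;> rw [h] <;> simp [hs]

end Pool.Agent.Zk85.SQ
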