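import Pool.Agent.Zk91.SQ.Defs

/-!
# The Dirichlet series of an angular character is bounded near `1`
-/

set_option autoImplicit false

open Filter Topology

namespace Pool.Agent.Zk85.SQ

open Pool.Agent.Zk91.SQ

noncomputable section

/-- the absolute value -/
def av (ξ : G) : ℝ := ‖GaussianInt.toComplex ξ‖

lemma av_nonneg (ξ : G) : 0 ≤ av ξ := norm_nonneg _

lemma norm_av (ξ : G) : (ξ.norm : ℝ) = av ξ ^ 2 := by
  rw [GaussianInt.intCast_real_norm, Complex.normSq_eq_norm_sq]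
  rfl

lemma psi_eq (k : ℕ) (ξ : G) :
    psi k ξ = (GaussianInt.toComplex ξ / (av ξ : ℂ)) ^ (4 * k) := by
  have h : ((ξ.norm : ℤ) : ℂ) = ((av ξ : ℂ)) ^ 2 := by
    have h2 : (((ξ.norm : ℝ)) : ℂ) = ((av ξ ^ 2 : ℝ) : ℂ) := by rw [norm_av ξ]
    push_cast at h2
    exact h2
  rw [psi, h, div_pow, ← pow_mul]
  congr 2
  ring

lemma unit_le (z : ℂ) : ‖z / (‖z‖ : ℂ)‖ ≤ 1 := by
  rw [norm_div, Complex.norm_real, norm_norm]
  exact div_self_le_one _

lemma psi_norm_le (k : ℕ) (ξ : G) : ‖psi k ξ‖ ≤ 1 := by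
  rw [psi_eq, norm_pow]
  exact pow_le_one₀ (norm_nonneg _) (unit_le _)

lemma psi_mul (k : ℕ) (ξ η : G) : psi k (ξ * η) = psi k ξ * psi k η := by
  rw [psi_eq, psi_eq, psi_eq, ← mul_pow]
  congr 1
  have h : av (ξ * η) = av ξ * av η := by
    rw [av, map_mul, norm_mul]; rfl
  rw [h, map_mul]
  push_cast
  rw [mul_div_mul_comm]

lemma unit_diff (z w : ℂ) (hz : z ≠ 0) :
    ‖w / (‖w‖ : ℂ) - z / (‖z‖ : ℂ)‖ ≤ 2 * ‖w - z‖ / ‖z‖ := by
  have hz0 : 0 < ‖z‖ := norm_pos_iff.2 hz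
  have h1 : w / (‖w‖ : ℂ) - z / (‖z‖ : ℂ) = (w / (‖w‖ : ℂ) - w / (‖z‖ : ℂ)) + (w - z) / (‖z‖ : ℂ) := by
    rw [sub_div]; ring
  have h2 : ‖w / (‖w‖ : ℂ) - w / (‖z‖ : ℂ)‖ ≤ ‖w - z‖ / ‖z‖ := by
    by_cases hw : w = 0
    · rw [hw]
      simp only [zero_div, sub_zero, norm_zero, zero_sub, norm_neg]
      exact div_nonneg (norm_nonneg _) (norm_nonneg _)
    have hw0 : 0 < ‖w‖ := norm_pos_iff.2 hw
    have h3 : w / (‖w‖ : ℂ) - w / (‖z‖ : ℂ) = w * (((‖z‖ - ‖w‖ : ℝ)) : ℂ) / ((‖w‖ : ℂ) * (‖z‖ : ℂ)) := by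
      have e1 : (‖w‖ : ℂ) ≠ 0 := by exact_mod_cast hw0.ne'
      have e2 : (‖z‖ : ℂ) ≠ 0 := by exact_mod_cast hz0.ne'
      push_cast
      field_simp
    rw [h3, norm_div, norm_mul, norm_mul, Complex.norm_real, Complex.norm_real, Complex.norm_real,
      norm_norm, norm_norm, mul_div_mul_left _ _ hw0.ne']
    gcongr
    rw [Real.norm_eq_abs, abs_sub_comm]
    exact abs_norm_sub_norm_le w z
  have h4 : ‖(w - z) / (‖z‖ : ℂ)‖ = ‖w - z‖ / ‖z‖ := by
    rw [norm_div, Complex.norm_real, norm_norm]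
  rw [h1]
  refine (norm_add_le _ _).trans ?_
  rw [h4, mul_div_assoc]
  linarith

lemma pow_diff (a b : ℂ) (ha : ‖a‖ ≤ 1) (hb : ‖b‖ ≤ 1) (n : ℕ) :
    ‖a ^ n - b ^ n‖ ≤ n * ‖a - b‖ := by
  induction n with
  | zero => simp
  | succ n ih =>
    have h1 : a ^ (n + 1) - b ^ (n + 1) = a * (a ^ n - b ^ n) + (a - b) * b ^ n := by ring
    rw [h1]
    refine (norm_add_le _ _).trans ?_
    rw [norm_mul, norm_mul, norm_pow]
    have h2 : ‖b‖ ^ n ≤ 1 := pow_le_one₀ (norm_nonneg _) hb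
    have h3 : ‖a‖ * ‖a ^ n - b ^ n‖ ≤ 1 * (n * ‖a - b‖) :=
      mul_le_mul ha ih (norm_nonneg _) zero_le_one
    have h4 : ‖a - b‖ * ‖b‖ ^ n ≤ ‖a - b‖ * 1 := mul_le_mul_of_nonneg_left h2 (norm_nonneg _)
    push_cast
    linarith

lemma rpow_diff {a b p : ℝ} (ha : 0 < a) (hab : a ≤ b) (hp : 1 ≤ p) :
    |a ^ (-p) - b ^ (-p)| ≤ p * ((b - a) / b) * a ^ (-p) := by
  have hb : 0 < b := ha.trans_le hab
  have h1 : b ^ (-p) = a ^ (-p) * (a / b) ^ p := by
    rw [Real.div_rpow ha.le hb.le, Real.rpow_neg hb.le, Real.rpow_neg ha.le]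
    have : a ^ p ≠ 0 := (Real.rpow_pos_of_pos ha p).ne'
    field_simp
  have h2 : 1 + p * (a / b - 1) ≤ (a / b) ^ p := by
    have := one_add_mul_self_le_rpow_one_add (s := a / b - 1) (by
      have : 0 ≤ a / b := by positivity
      linarith) hp
    rwa [add_sub_cancel] at this
  have h3 : (a / b) ^ p ≤ 1 := Real.rpow_le_one (by positivity) ((div_le_one hb).2 hab) (by linarith)
  have h4 : 0 < a ^ (-p) := Real.rpow_pos_of_pos ha _
  rw [h1]
  have h5 : a ^ (-p) - a ^ (-p) * (a / b) ^ p = a ^ (-p) * (1 - (a / b) ^ p) := by ring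
  rw [h5, abs_of_nonneg (mul_nonneg h4.le (by linarith)), mul_comm]
  apply mul_le_mul_of_nonneg_right _ h4.le
  have h6 : (b - a) / b = 1 - a / b := by field_simp
  rw [h6]
  linarith

/-- the terms -/
def gs (k : ℕ) (s : ℝ) (ξ : G) : ℂ := psi k ξ * ((((ξ.norm : ℝ)) ^ (-s) : ℝ) : ℂ)

lemma gs_eq (k : ℕ) (s : ℝ) (ξ : G) : gs k s ξ = psi k ξ * (((av ξ) ^ (-(2 * s)) : ℝ) : ℂ) := by
  rw [gs, norm_av, ← Real.rpow_natCast, ← Real.rpow_mul (av_nonneg ξ)]
  congr 3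
  push_cast
  ring

lemma one_le_av {ξ : G} (h : ξ ≠ 0) : 1 ≤ av ξ := by
  have h1 : 0 < ξ.norm := GaussianInt.norm_pos.2 h
  have h2 : (1 : ℝ) ≤ ξ.norm := by exact_mod_cast h1
  rw [norm_av] at h2
  nlinarith [av_nonneg ξ]

lemma av_zero : av 0 = 0 := by simp [av]

lemma gs_le_one (k : ℕ) {s : ℝ} (hs : 1 < s) (ξ : G) : ‖gs k s ξ‖ ≤ 1 := by
  rw [gs_eq, norm_mul, Complex.norm_real, Real.norm_eq_abs,
    abs_of_nonneg (Real.rpow_nonneg (av_nonneg ξ) _)]
  refine mul_le_one₀ (psi_norm_le k ξ) (Real.rpow_nonneg (av_nonneg ξ) _) ?_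
  by_cases h : ξ = 0
  · rw [h, av_zero, Real.zero_rpow (by linarith)]
    exact zero_le_one
  · exact Real.rpow_le_one_of_one_le_of_nonpos (one_le_av h) (by linarith)

/-- the difference of the terms -/
lemma gs_diff (k : ℕ) {s : ℝ} (hs : 1 < s) (hs2 : s ≤ 2) (ξ : G) (hξ : ξ ≠ 0) (j : ℕ) (hj : j ≤ 4) :
    ‖gs k s (ξ + j) - gs k s ξ‖ ≤ (128 * k + 1024) / av ξ ^ 3 := by
  have hA1 := one_le_av hξ
  set A := av ξ with hA
  have hA3 : 0 < A ^ 3 := by positivity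
  rcases lt_or_ge A 8 with hA8 | hA8
  · have h1 : ‖gs k s (ξ + j) - gs k s ξ‖ ≤ 2 := by
      refine (norm_sub_le _ _).trans ?_
      linarith [gs_le_one k hs (ξ + j), gs_le_one k hs ξ]
    refine h1.trans ?_
    rw [le_div_iff₀ hA3]
    have h2 : A ^ 3 ≤ 8 ^ 3 := pow_le_pow_left₀ (by linarith) hA8.le 3
    have h3 : (0 : ℝ) ≤ 128 * k := by positivity
    linarith
  set B := av (ξ + j) with hB
  have hdist : ‖GaussianInt.toComplex (ξ + j) - GaussianInt.toComplex ξ‖ ≤ 4 := by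
    rw [map_add, add_sub_cancel_left, map_natCast, Complex.norm_natCast]
    exact_mod_cast hj
  have hAB : |B - A| ≤ 4 := (abs_norm_sub_norm_le _ _).trans hdist
  have hAB' := abs_le.1 hAB
  have hBA : A / 2 ≤ B := by linarith
  have hB0 : 0 < B := by linarith
  have hB1 : 1 ≤ B := by linarith
  have hBp : B ^ (-(2 * s)) ≤ 4 / A ^ 2 := by
    have h1 : B ^ (-(2 * s)) ≤ B ^ (-2 : ℝ) :=
      Real.rpow_le_rpow_of_exponent_le hB1 (by linarith)
    refine h1.trans ?_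
    rw [Real.rpow_neg hB0.le, show (2 : ℝ) = ((2 : ℕ) : ℝ) by norm_num, Real.rpow_natCast,
      inv_eq_one_div, div_le_div_iff₀ (by positivity) (by positivity)]
    nlinarith
  have hAp : A ^ (-(2 * s)) ≤ 1 / A ^ 2 := by
    have h1 : A ^ (-(2 * s)) ≤ A ^ (-2 : ℝ) :=
      Real.rpow_le_rpow_of_exponent_le hA1 (by linarith)
    refine h1.trans (le_of_eq ?_)
    rw [Real.rpow_neg (by linarith), show (2 : ℝ) = ((2 : ℕ) : ℝ) by norm_num, Real.rpow_natCast,
      inv_eq_one_div]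
  have hBp0 : 0 ≤ B ^ (-(2 * s)) := Real.rpow_nonneg hB0.le _
  have hAp0 : 0 ≤ A ^ (-(2 * s)) := Real.rpow_nonneg (by linarith) _
  -- the powers
  have hpow : |B ^ (-(2 * s)) - A ^ (-(2 * s))| ≤ 64 / A ^ 3 := by
    have hA0 : 0 < A := by linarith
    rcases le_total A B with h | h
    · have h1 := rpow_diff (p := 2 * s) hA0 h (by linarith)
      rw [abs_sub_comm] at h1
      refine h1.trans ?_
      have h2 : (B - A) / B ≤ 4 / A := by
        rw [div_le_div_iff₀ hB0 hA0]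
        nlinarith
      have h3 : 0 ≤ (B - A) / B := div_nonneg (by linarith) hB0.le
      have h4 : 2 * s * ((B - A) / B) ≤ 4 * (4 / A) := by
        apply mul_le_mul (by linarith) h2 h3 (by norm_num)
      calc 2 * s * ((B - A) / B) * A ^ (-(2 * s)) ≤ 4 * (4 / A) * (1 / A ^ 2) :=
            mul_le_mul h4 hAp hAp0 (by positivity)
        _ ≤ 64 / A ^ 3 := by
            rw [show 4 * (4 / A) * (1 / A ^ 2) = 16 / A ^ 3 by field_simp; ring]
            gcongr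
            norm_num
    · have h1 := rpow_diff (p := 2 * s) hB0 h (by linarith)
      refine h1.trans ?_
      have h2 : (A - B) / A ≤ 4 / A := by
        gcongr
        linarith
      have h3 : 0 ≤ (A - B) / A := div_nonneg (by linarith) hA0.le
      have h4 : 2 * s * ((A - B) / A) ≤ 4 * (4 / A) := by
        apply mul_le_mul (by linarith) h2 h3 (by norm_num)
      calc 2 * s * ((A - B) / A) * B ^ (-(2 * s)) ≤ 4 * (4 / A) * (4 / A ^ 2) :=
            mul_le_mul h4 hBp hBp0 (by positivity)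
        _ = 64 / A ^ 3 := by field_simp; ring
  -- the characters
  have hpsi : ‖psi k (ξ + j) - psi k ξ‖ ≤ 32 * k / A := by
    have hz : GaussianInt.toComplex ξ ≠ 0 := by
      intro h
      have : A = 0 := by rw [hA, av, h, norm_zero]
      linarith
    rw [psi_eq, psi_eq]
    refine (pow_diff _ _ (unit_le _) (unit_le _) _).trans ?_
    have h1 := unit_diff (GaussianInt.toComplex ξ) (GaussianInt.toComplex (ξ + j)) hz
    have h2 : 2 * ‖GaussianInt.toComplex (ξ + j) - GaussianInt.toComplex ξ‖ /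
        ‖GaussianInt.toComplex ξ‖ ≤ 8 / A := by
      have : ‖GaussianInt.toComplex ξ‖ = A := rfl
      rw [this]
      gcongr
      linarith
    have h3 := h1.trans h2
    push_cast
    calc 4 * (k : ℝ) * ‖GaussianInt.toComplex (ξ + j) / (av (ξ + j) : ℂ) -
        GaussianInt.toComplex ξ / (av ξ : ℂ)‖ ≤ 4 * k * (8 / A) :=
          mul_le_mul_of_nonneg_left h3 (by positivity)
      _ = 32 * k / A := by ring
  have h1 : gs k s (ξ + j) - gs k s ξ = (psi k (ξ + j) - psi k ξ) * ((B ^ (-(2 * s)) : ℝ) : ℂ) +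
      psi k ξ * (((B ^ (-(2 * s)) - A ^ (-(2 * s)) : ℝ)) : ℂ) := by
    rw [gs_eq, gs_eq]
    push_cast
    ring
  rw [h1]
  refine (norm_add_le _ _).trans ?_
  rw [norm_mul, norm_mul, Complex.norm_real, Complex.norm_real, Real.norm_eq_abs, Real.norm_eq_abs,
    abs_of_nonneg hBp0]
  have h2 : ‖psi k (ξ + j) - psi k ξ‖ * B ^ (-(2 * s)) ≤ 32 * k / A * (4 / A ^ 2) :=
    mul_le_mul hpsi hBp hBp0 (by positivity)
  have h3 : ‖psi k ξ‖ * |B ^ (-(2 * s)) - A ^ (-(2 * s))| ≤ 1 * (64 / A ^ 3) :=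
    mul_le_mul (psi_norm_le k ξ) hpow (abs_nonneg _) zero_le_one
  have h4 : 32 * k / A * (4 / A ^ 2) = 128 * k / A ^ 3 := by
    have : A ≠ 0 := by linarith
    field_simp
    ring
  rw [h4] at h2
  have h5 : (128 * (k : ℝ) + 1024) / A ^ 3 = 128 * k / A ^ 3 + 64 / A ^ 3 + 960 / A ^ 3 := by ring
  have h6 : 0 ≤ 960 / A ^ 3 := by positivity
  linarith

/-! ### Summability -/

/-- the coordinates -/
def vec (ξ : G) : Fin 2 → ℤ := ![ξ.re, ξ.im]

lemma vec_inj : Function.Injective vec := by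
  intro ξ η h
  have h0 := congrFun h 0
  have h1 := congrFun h 1
  simp only [vec, Matrix.cons_val_zero, Matrix.cons_val_one] at h0 h1
  exact Zsqrtd.ext h0 h1

lemma vec_le (ξ : G) : ‖vec ξ‖ ≤ av ξ := by
  rw [pi_norm_le_iff_of_nonneg (av_nonneg ξ)]
  intro i
  have h1 : |(GaussianInt.toComplex ξ).re| ≤ av ξ := Complex.abs_re_le_norm _
  have h2 : |(GaussianInt.toComplex ξ).im| ≤ av ξ := Complex.abs_im_le_norm _
  rw [← GaussianInt.intCast_re] at h1
  rw [← GaussianInt.intCast_im] at h2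
  fin_cases i
  · simpa [vec, Int.norm_eq_abs] using h1
  · simpa [vec, Int.norm_eq_abs] using h2

lemma vec_pos {ξ : G} (h : ξ ≠ 0) : 0 < ‖vec ξ‖ := by
  rw [norm_pos_iff]
  intro h0
  apply h
  apply vec_inj
  rw [h0]
  ext i
  fin_cases i <;> simp [vec]

lemma summable_vec {t : ℝ} (ht : 2 < t) : Summable fun ξ : G => ‖vec ξ‖ ^ (-t) :=
  (EisensteinSeries.summable_one_div_norm_rpow ht).comp_injective vec_inj

lemma av_rpow_le (ξ : G) {t : ℝ} (ht : 0 < t) : av ξ ^ (-t) ≤ ‖vec ξ‖ ^ (-t) := by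
  by_cases h : ξ = 0
  · have h0 : vec 0 = 0 := by
      ext i
      fin_cases i <;> simp [vec]
    rw [h, av_zero, h0, norm_zero]
  · exact Real.rpow_le_rpow_of_nonpos (vec_pos h) (vec_le ξ) (by linarith)

lemma summable_gs (k : ℕ) {s : ℝ} (hs : 1 < s) : Summable (gs k s) := by
  refine Summable.of_norm_bounded (summable_vec (t := 2 * s) (by linarith)) fun ξ => ?_
  rw [gs_eq, norm_mul, Complex.norm_real, Real.norm_eq_abs,
    abs_of_nonneg (Real.rpow_nonneg (av_nonneg ξ) _)]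
  calc ‖psi k ξ‖ * av ξ ^ (-(2 * s)) ≤ 1 * ‖vec ξ‖ ^ (-(2 * s)) :=
        mul_le_mul (psi_norm_le k ξ) (av_rpow_le ξ (by linarith)) (Real.rpow_nonneg (av_nonneg ξ) _)
          zero_le_one
    _ = _ := one_mul _

/-! ### Division by `2 + i` -/

/-- `2 + i` -/
def w5 : G := ⟨2, 1⟩

lemma bij : Function.Bijective (fun p : G × Fin 5 => w5 * p.1 + ((p.2 : ℕ) : G)) := by
  constructor
  · rintro ⟨η, j⟩ ⟨η', j'⟩ h
    have hre := congrArg Zsqrtd.re h
    have him := congrArg Zsqrtd.im h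
    simp only [w5, Zsqrtd.re_add, Zsqrtd.im_add, Zsqrtd.re_mul, Zsqrtd.im_mul, Zsqrtd.re_natCast,
      Zsqrtd.im_natCast] at hre him
    have hj := j.2
    have hj' := j'.2
    have e1 : η.im = η'.im := by omega
    have e2 : η.re = η'.re := by omega
    have e3 : (j : ℕ) = j' := by omega
    exact Prod.ext (Zsqrtd.ext e2 e1) (Fin.ext e3)
  · intro ξ
    have hmod : 0 ≤ (ξ.re - 2 * ξ.im) % 5 ∧ (ξ.re - 2 * ξ.im) % 5 < 5 :=
      ⟨Int.emod_nonneg _ (by norm_num), Int.emod_lt_of_pos _ (by norm_num)⟩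
    obtain ⟨j, hj⟩ : ∃ j : ℕ, (j : ℤ) = (ξ.re - 2 * ξ.im) % 5 :=
      ⟨((ξ.re - 2 * ξ.im) % 5).toNat, by omega⟩
    have hdiv : ξ.re - 2 * ξ.im = 5 * ((ξ.re - 2 * ξ.im) / 5) + j := by
      rw [hj]; exact (Int.mul_ediv_add_emod _ _).symm
    set m := (ξ.re - 2 * ξ.im) / 5 with hm
    -- `ξ - j = (5 m + 2 y) + y i`, `η = 2 m + y - m i`
    refine ⟨(⟨2 * m + ξ.im, -m⟩, ⟨j, by omega⟩), ?_⟩
    apply Zsqrtd.ext
    · simp only [w5, Zsqrtd.re_add, Zsqrtd.re_mul, Zsqrtd.re_natCast]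
      linarith
    · simp only [w5, Zsqrtd.im_add, Zsqrtd.im_mul, Zsqrtd.im_natCast]
      ring

lemma w5_pow (n : ℕ) : ∃ a b : ℤ, w5 ^ (n + 1) = ⟨2 * 4 ^ n + 5 * a, 4 ^ n + 5 * b⟩ := by
  induction n with
  | zero => exact ⟨0, 0, by simp [w5]⟩
  | succ n ih =>
    obtain ⟨a, b, h⟩ := ih
    refine ⟨2 * a - b - 4 ^ n, a + 2 * b, ?_⟩
    rw [pow_succ, h]
    apply Zsqrtd.ext
    · simp only [w5, Zsqrtd.re_mul]
      ring
    · simp only [w5, Zsqrtd.im_mul]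
      ring

lemma av_w5 : av w5 ^ 2 = 5 := by
  rw [← norm_av]
  norm_num [w5, Zsqrtd.norm_def]

lemma psi_w5 (k : ℕ) (hk : 0 < k) : psi k w5 ≠ 1 := by
  intro h
  have hn : ((w5.norm : ℤ) : ℂ) = 5 := by norm_num [w5, Zsqrtd.norm_def]
  rw [psi, hn, div_eq_one_iff_eq (pow_ne_zero _ (by norm_num))] at h
  have h1 : w5 ^ (4 * k) = (5 : G) ^ (2 * k) := by
    apply GaussianInt.toComplex_injective
    rw [map_pow, map_pow, h]
    congr 1
    exact (map_ofNat GaussianInt.toComplex 5).symm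
  obtain ⟨a, b, h2⟩ := w5_pow (4 * k - 1)
  rw [show 4 * k - 1 + 1 = 4 * k by omega, h1] at h2
  have h3 : ((5 : G) ^ (2 * k)).im = 0 := by
    have : ((5 : G) ^ (2 * k)) = (((5 ^ (2 * k) : ℕ)) : G) := by push_cast; rfl
    rw [this, Zsqrtd.im_natCast]
  rw [h2] at h3
  simp only at h3
  have h4 : (5 : ℤ) ∣ 4 ^ (4 * k - 1) := ⟨-b, by linarith⟩
  have h5 : (5 : ℤ) ∣ 4 := Prime.dvd_of_dvd_pow (by norm_num) h4
  omega

theorem m1 : S_M1 := by
  intro k hk
  set ω := psi k w5 with hω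
  have hω1 : ω ≠ 1 := psi_w5 k hk
  have hωn : ‖ω‖ ≤ 1 := psi_norm_le k w5
  -- the lower bound
  obtain ⟨c, hc0, hc⟩ : ∃ c : ℝ, 0 < c ∧ ∀ r : ℝ, 0 ≤ r → r ≤ 1 → c ≤ ‖1 - (r : ℂ) * ω‖ := by
    have hcont : ContinuousOn (fun r : ℝ => ‖1 - (r : ℂ) * ω‖) (Set.Icc 0 1) := by fun_prop
    obtain ⟨r₀, hr₀, hmin⟩ := isCompact_Icc.exists_isMinOn (Set.nonempty_Icc.2 zero_le_one) hcont
    refine ⟨‖1 - (r₀ : ℂ) * ω‖, ?_, fun r h0 h1 => hmin ⟨h0, h1⟩⟩
    rw [norm_pos_iff]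
    intro h
    have h1 : (r₀ : ℂ) * ω = 1 := (sub_eq_zero.1 h).symm
    have h2 : r₀ * ‖ω‖ = 1 := by
      have := congrArg norm h1
      rwa [norm_mul, Complex.norm_real, Real.norm_eq_abs, abs_of_nonneg hr₀.1, norm_one] at this
    have h3 : r₀ = 1 := by
      have := hr₀.2
      nlinarith [hr₀.1, norm_nonneg ω]
    rw [h3] at h1
    push_cast at h1
    rw [one_mul] at h1
    exact hω1 h1
  -- the majorant
  set K : ℝ := 128 * k + 1024 with hK
  have hK0 : 0 ≤ K := by positivity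
  set Mj : G → ℝ := fun η => 5 * (K * ‖vec η‖ ^ (-(3 : ℝ))) + if η = 0 then 10 else 0 with hMj
  have hMs : Summable Mj := by
    refine (((summable_vec (by norm_num : (2 : ℝ) < 3)).mul_left K).mul_left 5).add ?_
    exact summable_of_ne_finset_zero (s := {0}) fun η hη => by
      rw [if_neg]
      simpa using hη
  refine ⟨(∑' η, Mj η) / c, fun s hs hs2 => ?_⟩
  change ‖∑' ξ : G, gs k s ξ‖ ≤ _
  set L := ∑' ξ : G, gs k s ξ with hL
  have hsum := summable_gs k hs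
  set e : G × Fin 5 ≃ G := Equiv.ofBijective _ bij with he
  have he1 : ∀ η j, e (η, j) = w5 * η + ((j : ℕ) : G) := fun η j => rfl
  have hsum2 : Summable fun p : G × Fin 5 => gs k s (e p) := e.summable_iff.2 hsum
  have h1 : L = ∑' η : G, ∑ j : Fin 5, gs k s (w5 * η + ((j : ℕ) : G)) := by
    rw [hL, ← e.tsum_eq, hsum2.tsum_prod]
    refine tsum_congr fun η => ?_
    rw [tsum_fintype]
    exact Finset.sum_congr rfl fun j _ => by rw [he1]
  have hmul : ∀ η, gs k s (w5 * η) = (ω * (((5 : ℝ) ^ (-s) : ℝ) : ℂ)) * gs k s η := by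
    intro η
    rw [gs, gs, psi_mul, Zsqrtd.norm_mul]
    have h5 : ((w5.norm * η.norm : ℤ) : ℝ) ^ (-s) = (5 : ℝ) ^ (-s) * ((η.norm : ℝ)) ^ (-s) := by
      have hn : w5.norm = 5 := by norm_num [w5, Zsqrtd.norm_def]
      rw [hn]
      push_cast
      rw [Real.mul_rpow (by norm_num)]
      exact_mod_cast GaussianInt.norm_nonneg η
    rw [h5]
    push_cast
    ring
  have hsw : Summable fun η => gs k s (w5 * η) := by
    simp only [hmul]
    exact hsum.mul_left _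
  have hdiff : ∀ η, ‖∑ j : Fin 5, (gs k s (w5 * η + ((j : ℕ) : G)) - gs k s (w5 * η))‖ ≤ Mj η := by
    intro η
    by_cases hη : η = 0
    · have h2 : ∀ j : Fin 5, ‖gs k s (w5 * η + ((j : ℕ) : G)) - gs k s (w5 * η)‖ ≤ 2 := by
        intro j
        refine (norm_sub_le _ _).trans ?_
        linarith [gs_le_one k hs (w5 * η + ((j : ℕ) : G)), gs_le_one k hs (w5 * η)]
      refine (norm_sum_le _ _).trans ((Finset.sum_le_sum fun j _ => h2 j).trans ?_)
      simp only [hMj, if_pos hη, Finset.sum_const, Finset.card_univ, Fintype.card_fin]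
      have : 0 ≤ 5 * (K * ‖vec η‖ ^ (-(3 : ℝ))) := by positivity
      rw [nsmul_eq_mul]
      push_cast
      linarith
    · have hw : w5 * η ≠ 0 := mul_ne_zero (by
        intro h
        have := congrArg Zsqrtd.im h
        simp [w5] at this) hη
      have h3 : av η ≤ av (w5 * η) := by
        have h4 : av (w5 * η) = av w5 * av η := by
          rw [av, map_mul, norm_mul]; rfl
        have h5 : 1 ≤ av w5 := one_le_av (by
          intro h
          have := congrArg Zsqrtd.im h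
          simp [w5] at this)
        rw [h4]
        nlinarith [av_nonneg η]
      have h4 : ∀ j : Fin 5, ‖gs k s (w5 * η + ((j : ℕ) : G)) - gs k s (w5 * η)‖ ≤
          K * ‖vec η‖ ^ (-(3 : ℝ)) := by
        intro j
        refine (gs_diff k hs hs2 (w5 * η) hw j (by omega)).trans ?_
        have h5 := vec_pos hη
        have h6 : ‖vec η‖ ^ 3 ≤ av (w5 * η) ^ 3 :=
          pow_le_pow_left₀ h5.le ((vec_le η).trans h3) 3
        rw [Real.rpow_neg h5.le, show (3 : ℝ) = ((3 : ℕ) : ℝ) by norm_num, Real.rpow_natCast,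
          ← div_eq_mul_inv]
        gcongr
      refine (norm_sum_le _ _).trans ((Finset.sum_le_sum fun j _ => h4 j).trans ?_)
      simp only [hMj, if_neg hη, Finset.sum_const, Finset.card_univ, Fintype.card_fin]
      rw [nsmul_eq_mul]
      push_cast
      linarith
  have hsd : Summable fun η => ∑ j : Fin 5, (gs k s (w5 * η + ((j : ℕ) : G)) - gs k s (w5 * η)) :=
    Summable.of_norm_bounded hMs hdiff
  have h2 : L = 5 * ((ω * (((5 : ℝ) ^ (-s) : ℝ) : ℂ)) * L) +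
      ∑' η : G, ∑ j : Fin 5, (gs k s (w5 * η + ((j : ℕ) : G)) - gs k s (w5 * η)) := by
    have h3 : ∀ η : G, ∑ j : Fin 5, gs k s (w5 * η + ((j : ℕ) : G)) = 5 * gs k s (w5 * η) +
        ∑ j : Fin 5, (gs k s (w5 * η + ((j : ℕ) : G)) - gs k s (w5 * η)) := by
      intro η
      rw [Finset.sum_sub_distrib]
      simp
    conv_lhs => rw [h1]
    simp only [h3]
    rw [Summable.tsum_add (hsw.mul_left 5) hsd, tsum_mul_left]
    congr 2
    simp only [hmul]
    rw [tsum_mul_left]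
  have h3 : (1 - (((5 : ℝ) ^ (1 - s) : ℝ) : ℂ) * ω) * L =
      ∑' η : G, ∑ j : Fin 5, (gs k s (w5 * η + ((j : ℕ) : G)) - gs k s (w5 * η)) := by
    have h4 : (((5 : ℝ) ^ (1 - s) : ℝ) : ℂ) = 5 * (((5 : ℝ) ^ (-s) : ℝ) : ℂ) := by
      rw [show (1 - s : ℝ) = 1 + (-s) by ring, Real.rpow_add (by norm_num), Real.rpow_one]
      push_cast
      ring
    rw [h4]
    linear_combination h2
  have h4 := hc ((5 : ℝ) ^ (1 - s)) (by positivity)
    (Real.rpow_le_one_of_one_le_of_nonpos (by norm_num) (by linarith))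
  have h5 : ‖∑' η : G, ∑ j : Fin 5, (gs k s (w5 * η + ((j : ℕ) : G)) - gs k s (w5 * η))‖ ≤
      ∑' η, Mj η := tsum_of_norm_bounded hMs.hasSum hdiff
  rw [← h3, norm_mul] at h5
  rw [le_div_iff₀ hc0]
  nlinarith [norm_nonneg L]

end

end Pool.Agent.Zk85.SQ
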