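import Pool.Agent.Zk91.SQ.Defs6

/-!
# Compactness in the space of the continuous functions (module W3)
-/

set_option autoImplicit false

open MeasureTheory Filter Topology Set

namespace Pool.Agent.Zk85.SQ

open Pool.Agent.Zk91.SQ

/-- the functions (not necessarily continuous a priori) with the bounds -/
def Pc (M : ℕ → ℝ) : Set (ℂ → ℝ) := {f | ∀ (R : ℕ) (w w' : ℂ), ‖w‖ ≤ R → ‖w'‖ ≤ R →
  |f w| ≤ M R ∧ |f w - f w'| ≤ M R * ‖w - w'‖}

lemma Pc_lip {M : ℕ → ℝ} {f : ℂ → ℝ} (hf : f ∈ Pc M) (x : ℂ) (y : ℂ) (hy : dist y x < 1) :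
    dist (f y) (f x) ≤ |M (⌈‖x‖⌉₊ + 1)| * dist y x := by
  have hx : ‖x‖ ≤ ((⌈‖x‖⌉₊ + 1 : ℕ) : ℝ) := by
    push_cast
    linarith [Nat.le_ceil ‖x‖]
  have hy' : ‖y‖ ≤ ((⌈‖x‖⌉₊ + 1 : ℕ) : ℝ) := by
    push_cast
    have h1 : ‖y‖ ≤ ‖x‖ + ‖y - x‖ := by
      have := norm_add_le x (y - x)
      simpa using this
    rw [dist_eq_norm] at hy
    linarith [Nat.le_ceil ‖x‖]
  have h := (hf _ y x hy' hx).2
  rw [Real.dist_eq, dist_eq_norm]
  exact h.trans (mul_le_mul_of_nonneg_right (le_abs_self _) (norm_nonneg _))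

lemma Pc_cont {M : ℕ → ℝ} {f : ℂ → ℝ} (hf : f ∈ Pc M) : Continuous f := by
  rw [continuous_iff_continuousAt]
  intro x
  exact continuousAt_of_locally_lipschitz one_pos _ (fun y hy => Pc_lip hf x y hy)

lemma image_Kc (M : ℕ → ℝ) : ContinuousMap.toFun '' Kc M = Pc M := by
  ext f
  constructor
  · rintro ⟨g, hg, rfl⟩
    exact hg
  · intro hf
    exact ⟨⟨f, Pc_cont hf⟩, hf, rfl⟩

lemma isCompact_Pc (M : ℕ → ℝ) : IsCompact (Pc M) := by
  refine IsCompact.of_isClosed_subset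
    (isCompact_univ_pi fun w : ℂ => isCompact_Icc (a := -M ⌈‖w‖⌉₊) (b := M ⌈‖w‖⌉₊)) ?_ ?_
  · have : Pc M = ⋂ (R : ℕ) (w : ℂ) (w' : ℂ) (_ : ‖w‖ ≤ R) (_ : ‖w'‖ ≤ R),
        {f : ℂ → ℝ | |f w| ≤ M R ∧ |f w - f w'| ≤ M R * ‖w - w'‖} := by
      ext f
      simp only [Pc, mem_ofPred_eq, mem_iInter]
    rw [this]
    refine isClosed_iInter fun R => isClosed_iInter fun w => isClosed_iInter fun w' =>
      isClosed_iInter fun _ => isClosed_iInter fun _ => ?_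
    refine IsClosed.and ?_ ?_
    · exact isClosed_le (continuous_apply w).abs continuous_const
    · exact isClosed_le ((continuous_apply w).sub (continuous_apply w')).abs continuous_const
  · intro f hf w _
    have h := (hf ⌈‖w‖⌉₊ w w (Nat.le_ceil _) (Nat.le_ceil _)).1
    exact abs_le.mp h

theorem w3 : S_W3 := by
  intro M
  refine ArzelaAscoli.isCompact_of_equicontinuous _ ?_ ?_
  · rw [image_Kc]
    exact isCompact_Pc M
  · intro x
    rw [Metric.equicontinuousAt_iff]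
    intro ε hε
    have hK : 0 < |M (⌈‖x‖⌉₊ + 1)| + 1 := by positivity
    refine ⟨min 1 (ε / (|M (⌈‖x‖⌉₊ + 1)| + 1)), lt_min one_pos (div_pos hε hK), ?_⟩
    intro y hy f
    have h1 := Pc_lip (M := M) (f := (f : C(ℂ, ℝ))) f.2 x y (lt_of_lt_of_le hy (min_le_left _ _))
    have h2 : dist y x < ε / (|M (⌈‖x‖⌉₊ + 1)| + 1) := lt_of_lt_of_le hy (min_le_right _ _)
    rw [lt_div_iff₀ hK] at h2
    rw [dist_comm]
    calc dist ((f : C(ℂ, ℝ)) y) ((f : C(ℂ, ℝ)) x) ≤ |M (⌈‖x‖⌉₊ + 1)| * dist y x := h1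
      _ ≤ dist y x * (|M (⌈‖x‖⌉₊ + 1)| + 1) := by
          rw [mul_comm]
          exact mul_le_mul_of_nonneg_left (by linarith) dist_nonneg
      _ < ε := h2

end Pool.Agent.Zk85.SQ
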