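import Pool.Agent.Zk91.SQ.Defs3

/-!
# Completeness of the product sines in `L²` of the square (module B2)

Proof: the products of the sine factor with the products of cosines are combinations of the product
sines; the products of cosines span an algebra of continuous functions which separates the points
of the closed square, so by Stone–Weierstrass `f · sin · sin` is orthogonal to all the continuous
functions, hence it is zero almost everywhere.
-/

set_option autoImplicit false

open MeasureTheory Set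

namespace Pool.Agent.Zk85.SQ

open Pool.Agent.Zk91.SQ

/-- the closed square -/
def Kq (a : ℝ) : Set ℂ := Icc 0 a ×ℂ Icc 0 a

lemma isCompact_Kq (a : ℝ) : IsCompact (Kq a) := IsCompact.reProdIm isCompact_Icc isCompact_Icc

lemma Sqa_subset (a : ℝ) : Sqa a ⊆ Kq a := by
  rintro z ⟨⟨h1, h2⟩, h3, h4⟩
  exact ⟨⟨h1.le, h2.le⟩, h3.le, h4.le⟩

/-- the products of cosines -/
noncomputable def cc (a : ℝ) (p : ℤ × ℤ) : C(ℂ, ℝ) :=
  ⟨fun z => Real.cos (Real.pi / a * p.1 * z.re) * Real.cos (Real.pi / a * p.2 * z.im), by fun_prop⟩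

lemma cc_apply (a : ℝ) (p : ℤ × ℤ) (z : ℂ) : cc a p z =
    Real.cos (Real.pi / a * p.1 * z.re) * Real.cos (Real.pi / a * p.2 * z.im) := rfl

lemma cc_mul (a : ℝ) (p q : ℤ × ℤ) : cc a p * cc a q = (1 / 4 : ℝ) •
    (cc a (p.1 + q.1, p.2 + q.2) + cc a (p.1 + q.1, p.2 - q.2) + cc a (p.1 - q.1, p.2 + q.2)
      + cc a (p.1 - q.1, p.2 - q.2)) := by
  ext z
  simp only [ContinuousMap.mul_apply, ContinuousMap.smul_apply, ContinuousMap.add_apply, cc_apply,
    smul_eq_mul]
  push_cast
  simp only [mul_add, mul_sub, add_mul, sub_mul, Real.cos_add, Real.cos_sub]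
  ring

/-- the linear span of the products of cosines -/
noncomputable def MM (a : ℝ) : Submodule ℝ C(ℂ, ℝ) := Submodule.span ℝ (Set.range (cc a))

lemma MM_one (a : ℝ) : (1 : C(ℂ, ℝ)) ∈ MM a := by
  refine Submodule.subset_span ⟨(0, 0), ?_⟩
  ext z
  simp [cc_apply]

lemma MM_cc (a : ℝ) (p : ℤ × ℤ) : cc a p ∈ MM a := Submodule.subset_span ⟨p, rfl⟩

lemma MM_mul (a : ℝ) (f g : C(ℂ, ℝ)) (hf : f ∈ MM a) (hg : g ∈ MM a) : f * g ∈ MM a := by
  have h : MM a * MM a ≤ MM a := by
    unfold MM
    rw [Submodule.span_mul_span, Submodule.span_le]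
    rintro _ ⟨_, ⟨p, rfl⟩, _, ⟨q, rfl⟩, rfl⟩
    show cc a p * cc a q ∈ _
    rw [cc_mul]
    refine Submodule.smul_mem _ _ (Submodule.add_mem _ (Submodule.add_mem _ (Submodule.add_mem _ ?_ ?_) ?_) ?_) <;>
    exact MM_cc a _
  exact h (Submodule.mul_mem_mul hf hg)

/-- the algebra of the trigonometric polynomials -/
noncomputable def AA (a : ℝ) : Subalgebra ℝ C(ℂ, ℝ) :=
  (MM a).toSubalgebra (MM_one a) (fun f g hf hg => MM_mul a f g hf hg)

lemma cos_ne {a : ℝ} (ha : 0 < a) {x y : ℝ} (hx : x ∈ Icc 0 a) (hy : y ∈ Icc 0 a) (h : x ≠ y) :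
    Real.cos (Real.pi / a * x) ≠ Real.cos (Real.pi / a * y) := by
  have hp : 0 < Real.pi / a := div_pos Real.pi_pos ha
  have key : ∀ t ∈ Icc 0 a, Real.pi / a * t ∈ Icc 0 Real.pi := by
    intro t ht
    refine ⟨mul_nonneg hp.le ht.1, ?_⟩
    calc Real.pi / a * t ≤ Real.pi / a * a := mul_le_mul_of_nonneg_left ht.2 hp.le
      _ = Real.pi := by field_simp
  intro h'
  have := Real.injOn_cos (key x hx) (key y hy) h'
  exact h (mul_left_cancel₀ hp.ne' this)

/-- Stone–Weierstrass on the closed square -/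
lemma approx {a : ℝ} (ha : 0 < a) (φ : C(ℂ, ℝ)) {ε : ℝ} (hε : 0 < ε) :
    ∃ g ∈ MM a, ∀ z ∈ Kq a, |g z - φ z| < ε := by
  haveI : CompactSpace (Kq a) := isCompact_iff_compactSpace.mp (isCompact_Kq a)
  let ι : C(Kq a, ℂ) := ⟨Subtype.val, continuous_subtype_val⟩
  let R : C(ℂ, ℝ) →ₐ[ℝ] C(Kq a, ℝ) := ContinuousMap.compRightAlgHom ℝ ℝ ι
  have hsep : ((AA a).map R).SeparatesPoints := by
    intro x y hxy
    have hxy' : (x : ℂ) ≠ (y : ℂ) := fun h => hxy (Subtype.ext h)
    by_cases hre : (x : ℂ).re = (y : ℂ).re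
    · have him : (x : ℂ).im ≠ (y : ℂ).im := fun h => hxy' (Complex.ext hre h)
      refine ⟨R (cc a (0, 1)), ⟨R (cc a (0, 1)), ⟨cc a (0, 1), MM_cc a _, rfl⟩, rfl⟩, ?_⟩
      have := cos_ne ha x.2.2 y.2.2 him
      simpa [R, ι, cc_apply] using this
    · refine ⟨R (cc a (1, 0)), ⟨R (cc a (1, 0)), ⟨cc a (1, 0), MM_cc a _, rfl⟩, rfl⟩, ?_⟩
      have := cos_ne ha x.2.1 y.2.1 hre
      simpa [R, ι, cc_apply] using this
  obtain ⟨⟨g', hg'⟩, hg⟩ :=
    ContinuousMap.exists_mem_subalgebra_near_continuousMap_of_separatesPoints _ hsep (R φ) ε hε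
  obtain ⟨g, hgA, hgg⟩ := Subalgebra.mem_map.mp hg'
  refine ⟨g, hgA, fun z hz => ?_⟩
  have h1 := (ContinuousMap.norm_lt_iff _ hε).mp hg ⟨z, hz⟩
  rw [← Real.norm_eq_abs]
  have h2 : (g' - R φ) ⟨z, hz⟩ = g z - φ z := by
    rw [ContinuousMap.sub_apply, ← hgg]
    rfl
  rw [← h2]
  exact h1

/-- the sine factor -/
noncomputable def ss (a : ℝ) (p : ℤ × ℤ) (z : ℂ) : ℝ :=
  Real.sin (Real.pi / a * p.1 * z.re) * Real.sin (Real.pi / a * p.2 * z.im)

lemma ss_mul_cc (a : ℝ) (p : ℤ × ℤ) (z : ℂ) : ss a (1, 1) z * cc a p z =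
    (1 / 4) * (ss a (1 + p.1, 1 + p.2) z + ss a (1 + p.1, 1 - p.2) z + ss a (1 - p.1, 1 + p.2) z
      + ss a (1 - p.1, 1 - p.2) z) := by
  simp only [ss, cc_apply]
  push_cast
  simp only [mul_add, mul_sub, add_mul, sub_mul, Real.sin_add, Real.sin_sub, mul_one]
  ring

theorem b2 : S_B2 := by
  intro a ha f hf h
  have hfin : volume (Sqa a) < ⊤ := lt_of_le_of_lt (measure_mono (Sqa_subset a)) (isCompact_Kq a).measure_lt_top
  haveI : IsFiniteMeasure (volume.restrict (Sqa a)) := ⟨by simpa using hfin⟩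
  have hopen : IsOpen (Sqa a) := by
    have : Sqa a = (Complex.re ⁻¹' (Ioo 0 a)) ∩ (Complex.im ⁻¹' (Ioo 0 a)) := by
      ext z; rfl
    rw [this]
    exact (isOpen_Ioo.preimage Complex.continuous_re).inter (isOpen_Ioo.preimage Complex.continuous_im)
  have hint : Integrable f (volume.restrict (Sqa a)) := hf.integrable (by norm_num)
  -- bounded continuous multipliers
  have hmul : ∀ g : ℂ → ℝ, Continuous g → (∃ C : ℝ, ∀ z ∈ Sqa a, |g z| ≤ C) →
      Integrable (fun z => f z * g z) (volume.restrict (Sqa a)) := by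
    rintro g hg ⟨C, hC⟩
    refine hint.mul_bdd (c := C) hg.aestronglyMeasurable ?_
    filter_upwards [ae_restrict_mem hopen.measurableSet] with z hz
    exact hC z hz
  have hbd : ∀ g : ℂ → ℝ, Continuous g → ∃ C : ℝ, ∀ z ∈ Sqa a, |g z| ≤ C := by
    intro g hg
    obtain ⟨C, hC⟩ := (isCompact_Kq a).exists_bound_of_continuousOn hg.continuousOn
    exact ⟨C, fun z hz => hC z (Sqa_subset a hz)⟩
  have hcs : ∀ p : ℤ × ℤ, Continuous (ss a p) := by
    intro p
    unfold ss
    fun_prop
  -- orthogonality to all the sines with integer indices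
  have horth : ∀ p : ℤ × ℤ, ∫ z in Sqa a, f z * ss a p z = 0 := by
    have hpos : ∀ p : ℕ × ℕ, ∫ z in Sqa a, f z * ss a (p.1, p.2) z = 0 := by
      rintro ⟨m, n⟩
      rcases Nat.eq_zero_or_pos m with rfl | hm
      · simp [ss]
      rcases Nat.eq_zero_or_pos n with rfl | hn
      · simp [ss]
      have := h (m, n) hm hn
      have e : ∀ z, f z * md a (m, n) z = 2 * (f z * ss a ((m : ℤ), (n : ℤ)) z) := by
        intro z
        simp only [md, ss]
        push_cast
        ring
      simp only [e] at this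
      rw [integral_const_mul] at this
      simpa using this
    rintro ⟨m, n⟩
    have e1 : ∀ k : ℤ, ∀ x : ℝ, ∃ s : ℝ, ∀ x : ℝ, Real.sin (Real.pi / a * k * x)
        = s * Real.sin (Real.pi / a * (k.natAbs : ℤ) * x) := by
      intro k _
      rcases Int.natAbs_eq k with hk | hk
      · refine ⟨1, fun x => ?_⟩
        rw [one_mul, ← hk]
      · refine ⟨-1, fun x => ?_⟩
        have : (k : ℝ) = -((k.natAbs : ℤ) : ℝ) := by
          rw [← Int.cast_neg, ← hk]
        rw [this, neg_one_mul, ← Real.sin_neg]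
        congr 1
        ring
    obtain ⟨s, hs⟩ := e1 m 0
    obtain ⟨t, ht⟩ := e1 n 0
    have e : ∀ z, f z * ss a (m, n) z
        = (s * t) * (f z * ss a ((m.natAbs : ℤ), (n.natAbs : ℤ)) z) := by
      intro z
      simp only [ss]
      rw [hs, ht]
      ring
    simp only [e]
    rw [integral_const_mul, hpos (m.natAbs, n.natAbs), mul_zero]
  -- orthogonality to the trigonometric polynomials
  have hM : ∀ φ ∈ MM a, ∫ z in Sqa a, f z * ss a (1, 1) z * φ z = 0 := by
    intro φ hφ
    refine Submodule.span_induction (p := fun φ _ => ∫ z in Sqa a, f z * ss a (1, 1) z * φ z = 0)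
      ?_ ?_ ?_ ?_ hφ
    · rintro _ ⟨p, rfl⟩
      have e : ∀ z, f z * ss a (1, 1) z * cc a p z =
          (1 / 4) * (f z * ss a (1 + p.1, 1 + p.2) z + f z * ss a (1 + p.1, 1 - p.2) z
            + f z * ss a (1 - p.1, 1 + p.2) z + f z * ss a (1 - p.1, 1 - p.2) z) := by
        intro z
        rw [mul_assoc, ss_mul_cc]
        ring
      simp only [e]
      have I : ∀ q, Integrable (fun z => f z * ss a q z) (volume.restrict (Sqa a)) := fun q =>
        hmul _ (hcs q) (hbd _ (hcs q))
      have J2 := (I (1 + p.1, 1 + p.2)).add (I (1 + p.1, 1 - p.2))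
      have J3 := J2.add (I (1 - p.1, 1 + p.2))
      have K1 := integral_add (I (1 + p.1, 1 + p.2)) (I (1 + p.1, 1 - p.2))
      have K2 := integral_add J2 (I (1 - p.1, 1 + p.2))
      have K3 := integral_add J3 (I (1 - p.1, 1 - p.2))
      simp only [Pi.add_apply] at K1 K2 K3
      rw [integral_const_mul, K3, K2, K1, horth, horth, horth, horth]
      norm_num
    · simp
    · intro φ ψ _ _ h1 h2
      have e : ∀ z, f z * ss a (1, 1) z * (φ + ψ) z =
          f z * ss a (1, 1) z * φ z + f z * ss a (1, 1) z * ψ z := by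
        intro z
        rw [ContinuousMap.add_apply, mul_add]
      simp only [e]
      have I : ∀ φ : C(ℂ, ℝ), Integrable (fun z => f z * ss a (1, 1) z * φ z)
          (volume.restrict (Sqa a)) := by
        intro φ
        have := hmul (fun z => ss a (1, 1) z * φ z) ((hcs _).mul φ.continuous)
          (hbd _ ((hcs _).mul φ.continuous))
        simpa only [mul_assoc] using this
      rw [integral_add (I φ) (I ψ), h1, h2, add_zero]
    · intro c φ _ h1
      have e : ∀ z, f z * ss a (1, 1) z * (c • φ) z = c * (f z * ss a (1, 1) z * φ z) := by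
        intro z
        rw [ContinuousMap.smul_apply, smul_eq_mul]
        ring
      simp only [e]
      rw [integral_const_mul, h1, mul_zero]
  -- orthogonality to all the continuous functions
  have I1 : Integrable (fun z => f z * ss a (1, 1) z) (volume.restrict (Sqa a)) :=
    hmul _ (hcs _) (hbd _ (hcs _))
  have I2 : ∀ φ : C(ℂ, ℝ), Integrable (fun z => f z * ss a (1, 1) z * φ z)
      (volume.restrict (Sqa a)) := by
    intro φ
    have := hmul (fun z => ss a (1, 1) z * φ z) ((hcs _).mul φ.continuous)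
      (hbd _ ((hcs _).mul φ.continuous))
    simpa only [mul_assoc] using this
  have hC : ∀ φ : C(ℂ, ℝ), ∫ z in Sqa a, f z * ss a (1, 1) z * φ z = 0 := by
    intro φ
    by_contra hne
    have hpos : 0 < |∫ z in Sqa a, f z * ss a (1, 1) z * φ z| := abs_pos.mpr hne
    set N := ∫ z in Sqa a, |f z * ss a (1, 1) z| with hN
    have hN0 : 0 ≤ N := integral_nonneg (fun z => abs_nonneg _)
    obtain ⟨d, hd⟩ : ∃ d, d = |∫ z in Sqa a, f z * ss a (1, 1) z * φ z| := ⟨_, rfl⟩
    rw [← hd] at hpos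
    obtain ⟨g, hg, hgφ⟩ := approx ha φ (ε := d / (N + 1)) (by positivity)
    have e1 : ∫ z in Sqa a, f z * ss a (1, 1) z * φ z
        = ∫ z in Sqa a, (f z * ss a (1, 1) z * φ z - f z * ss a (1, 1) z * g z) := by
      rw [integral_sub (I2 φ) (I2 g), hM g hg, sub_zero]
    have e2 : d ≤ ∫ z in Sqa a, |f z * ss a (1, 1) z| * (d / (N + 1)) := by
      refine (hd.trans (congrArg abs e1)).le.trans ?_
      refine (abs_integral_le_integral_abs).trans ?_
      refine integral_mono_ae ((I2 φ).sub (I2 g)).abs (I1.abs.mul_const _) ?_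
      filter_upwards [ae_restrict_mem hopen.measurableSet] with z hz
      have h1 := (hgφ z (Sqa_subset a hz)).le
      have e3 : f z * ss a (1, 1) z * φ z - f z * ss a (1, 1) z * g z
          = (f z * ss a (1, 1) z) * (φ z - g z) := by ring
      show |f z * ss a (1, 1) z * φ z - f z * ss a (1, 1) z * g z| ≤ _
      rw [e3, abs_mul, abs_sub_comm (φ z) (g z)]
      exact mul_le_mul_of_nonneg_left h1 (abs_nonneg _)
    rw [integral_mul_const, ← hN] at e2
    have e4 : N * (d / (N + 1)) < d := by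
      rw [mul_div_assoc', div_lt_iff₀ (by positivity)]
      nlinarith
    linarith
  have hz : ∀ᵐ z ∂(volume : Measure ℂ), z ∈ Sqa a → f z * ss a (1, 1) z = 0 := by
    refine hopen.ae_eq_zero_of_integral_contDiff_smul_eq_zero ?_ ?_
    · exact (show IntegrableOn (fun z => f z * ss a (1, 1) z) (Sqa a) volume from I1).locallyIntegrableOn
    · intro g hg _ hsupp
      have := hC ⟨g, hg.continuous⟩
      rw [← this, ← integral_indicator hopen.measurableSet]
      refine integral_congr_ae (Filter.Eventually.of_forall fun z => ?_)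
      by_cases hz : z ∈ Sqa a
      · simp only [Set.indicator_of_mem hz, smul_eq_mul, ContinuousMap.coe_mk]
        ring
      · have : g z = 0 := by
          by_contra hne
          exact hz (hsupp (subset_tsupport g hne))
        simp [Set.indicator_of_notMem hz, this]
  rw [Filter.EventuallyEq, ae_restrict_iff' hopen.measurableSet]
  filter_upwards [hz] with z hz hzS
  have h1 := hz hzS
  have hp : 0 < Real.pi / a := div_pos Real.pi_pos ha
  have key : ∀ t, 0 < t → t < a → 0 < Real.sin (Real.pi / a * t) := by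
    intro t ht0 ht
    refine Real.sin_pos_of_pos_of_lt_pi (mul_pos hp ht0) ?_
    calc Real.pi / a * t < Real.pi / a * a := mul_lt_mul_of_pos_left ht hp
      _ = Real.pi := by field_simp
  have h2 : ss a (1, 1) z ≠ 0 := by
    have h3 := key z.re hzS.1.1 hzS.1.2
    have h4 := key z.im hzS.2.1 hzS.2.2
    simp only [ss, Int.cast_one, mul_one]
    exact (mul_pos h3 h4).ne'
  rcases mul_eq_zero.mp h1 with h5 | h5
  · exact h5
  · exact absurd h5 h2

end Pool.Agent.Zk85.SQ
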